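import Mathlib

namespace Pool.Agent.Results.MP_f4a5b0_an.NoRecurrence
open Matrix Set Filter Topology MeasureTheory Metric
open scoped MatrixGroups Nat

abbrev G := SL(2, ℝ) × SL(2, ℝ)

/-- `SL(2, ℤ)` inside `SL(2, ℝ)` -/
def Z : Subgroup SL(2, ℝ) := (SpecialLinearGroup.map (Int.castRingHom ℝ)).range

/-- the lattice `SL(2, ℤ) × SL(2, ℤ)` -/
def Γ : Subgroup G := Z.prod Z

/-- `diag (e ^ s, e ^ (-s))` -/
noncomputable def a (s : ℝ) : SL(2, ℝ) :=
  ⟨!![Real.exp s, 0; 0, Real.exp (-s)], by simp [← Real.exp_add]⟩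

lemma a_add (s t : ℝ) : a (s + t) = a s * a t := by
  ext i j; fin_cases i <;> fin_cases j <;> simp [a, Real.exp_add, mul_apply, Fin.sum_univ_two,
    mul_comm]

lemma mZ (p q r s : ℤ) (h : p * s - q * r = 1) : ∃ γ ∈ Z, γ.1 = !![(p : ℝ), q; r, s] :=
  ⟨_, ⟨⟨!![p, q; r, s], by rwa [det_fin_two_of]⟩, rfl⟩, by
    ext i j; fin_cases i <;> fin_cases j <;> rfl⟩

def C (R : ℝ) : Set SL(2, ℝ) := {h | ∀ i j, |h.1 i j| ≤ R}

lemma cC (R : ℝ) : IsCompact (C R) := by
  have e : IsClosedEmbedding (Subtype.val : SL(2, ℝ) → Matrix (Fin 2) (Fin 2) ℝ) :=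
    IsClosed.isClosedEmbedding_subtypeVal (isClosed_eq (by fun_prop) continuous_const)
  convert! e.isCompact_preimage (isCompact_univ_pi fun _ : Fin 2 => isCompact_univ_pi
    fun _ : Fin 2 => isCompact_Icc (a := -R) (b := R)) using 1
  exact Set.ext fun h => ⟨fun hh i _ j _ => abs_le.1 (hh i j),
    fun hh i j => abs_le.2 (hh i trivial j trivial)⟩

lemma mahler (K : Set (G ⧸ Γ)) (hK : IsCompact K) : ∃ ε > 0, ∀ g : G, (g : G ⧸ Γ) ∈ K →
    ∀ p q : ℤ, p ≠ 0 ∨ q ≠ 0 →
      ε ≤ |g.1.1 0 0 * p + g.1.1 0 1 * q| ∨ ε ≤ |g.1.1 1 0 * p + g.1.1 1 1 * q| := by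
  obtain ⟨n, hn⟩ := hK.elim_directed_cover
    (fun n : ℕ => ((↑) : G → G ⧸ Γ) '' {g | ∀ i j, |g.1.1 i j| < n + 1})
    (fun n => QuotientGroup.isOpenMap_coe _ (by
      simp only [setOf_forall]
      exact isOpen_iInter_of_finite fun i => isOpen_iInter_of_finite fun j => isOpen_lt
        ((continuous_subtype_val.comp continuous_fst).matrix_elem i j).abs continuous_const))
    (fun x _ => by
      obtain ⟨g, rfl⟩ := QuotientGroup.mk_surjective x
      obtain ⟨n, hn⟩ := exists_nat_ge (∑ i, ∑ j, |g.1.1 i j|)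
      refine mem_iUnion.2 ⟨n, g, fun i j => ?_, rfl⟩
      simp only [Fin.sum_univ_two] at hn
      fin_cases i <;> fin_cases j <;> simp <;> linarith [abs_nonneg (g.1.1 0 0),
        abs_nonneg (g.1.1 0 1), abs_nonneg (g.1.1 1 0), abs_nonneg (g.1.1 1 1)])
    (Monotone.directed_le fun m n h => image_mono fun g hg i j => (hg i j).trans_le (by simpa))
  refine ⟨1 / (2 * (n + 1)), by positivity, fun g hg p q h0 => ?_⟩
  obtain ⟨h, hh, e⟩ := hn hg
  obtain ⟨γ, hγ⟩ := (Subgroup.mem_prod.1 (QuotientGroup.eq.1 e)).1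
  have e : ∀ i j, (SpecialLinearGroup.map (Int.castRingHom ℝ) γ).1 i j = (h.1⁻¹ * g.1).1 i j :=
    fun i j => by rw [hγ]; rfl
  simp only [SpecialLinearGroup.map_apply_coe, RingHom.mapMatrix_apply, map_apply,
    eq_intCast] at e
  by_contra hc
  push Not at hc
  have d := γ.2
  rw [det_fin_two] at d
  have k : ∀ (m : ℤ) (u v : ℝ), |u| < n + 1 → |v| < n + 1 → (m : ℝ) =
      u * (g.1.1 0 0 * p + g.1.1 0 1 * q) + v * (g.1.1 1 0 * p + g.1.1 1 1 * q) → m = 0 :=
    fun m u v hu hv e => by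
      have : |(m : ℝ)| < 1 := by
        rw [e]
        refine (abs_add_le _ _).trans_lt ?_
        rw [abs_mul, abs_mul]
        have b1 := mul_lt_mul'' hu hc.1 (abs_nonneg _) (abs_nonneg _)
        have b2 := mul_lt_mul'' hv hc.2 (abs_nonneg _) (abs_nonneg _)
        have : ((n : ℝ) + 1) * (1 / (2 * (n + 1))) = 1 / 2 := by field_simp
        linarith
      exact Int.abs_lt_one_iff.1 (by exact_mod_cast this)
  have k0 := k (γ.1 0 0 * p + γ.1 0 1 * q) _ (-h.1.1 0 1) (hh 1 1) (by simpa using hh 0 1)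
    (by push_cast; rw [e, e]; simp [adjugate_fin_two, mul_apply]; ring)
  have k1 := k (γ.1 1 0 * p + γ.1 1 1 * q) (-h.1.1 1 0) _ (by simpa using hh 1 0) (hh 0 0)
    (by push_cast; rw [e, e]; simp [adjugate_fin_two, mul_apply]; ring)
  refine h0.elim (fun h => h ?_) fun h => h ?_
  · linear_combination -p * d + γ.1 1 1 * k0 - γ.1 0 1 * k1
  · linear_combination -q * d - γ.1 1 0 * k0 + γ.1 0 0 * k1

lemma dens (c L : ℝ) (hL : 0 < L) (δ : ℝ) (hδ : 0 < δ) : ∀ᶠ T in atTop, ∃ I : Set ℝ,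
    volume I ≤ ENNReal.ofReal (δ * T) ∧ ∀ s ≤ T, -c ≤ s →
      (∀ k : ℕ, s ≤ k ! * L + c ∨ k * (k ! * L) - L - c ≤ s) → s ∈ I := by
  set B := 1 + 4 * |c| / L with hB
  have B0 : 0 ≤ B := by positivity
  obtain ⟨N, hN⟩ := exists_nat_ge (B + (2 + B) / δ)
  filter_upwards [eventually_ge_atTop (N * (N ! * L) - L - c)] with T hT
  have f1 : ∀ k : ℕ, L ≤ k ! * L := fun k =>
    le_mul_of_one_le_left hL.le (by exact_mod_cast k.factorial_pos)
  obtain ⟨i, h1, h2⟩ := Nat.exists_not_and_succ_of_not_zero_of_exists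
    (p := fun i => T < (N + i : ℕ) * ((N + i)! * L) - L - c) (by simpa using hT) (by
      obtain ⟨i, hi⟩ := exists_nat_gt ((T + L + c) / L)
      refine ⟨i, ?_⟩
      rw [div_lt_iff₀ hL] at hi
      have : (i : ℝ) * L ≤ (N + i : ℕ) * ((N + i)! * L) :=
        mul_le_mul (by simp) (f1 _) hL.le (by positivity)
      linarith)
  rw [← add_assoc] at h2
  have hk : (N : ℝ) ≤ (N + i : ℕ) := by simp
  generalize N + i = k at *
  refine ⟨Icc (-c) (k ! * L + c) ∪ Icc (k * (k ! * L) - L - c) ((k + 1)! * L + c), ?_,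
    fun s hs h0 h => ?_⟩
  · have hF := f1 k
    have c1 := le_abs_self c
    have e : ((k + 1)! : ℝ) * L = k * (k ! * L) + k ! * L := by
      rw [Nat.factorial_succ]; push_cast; ring
    rw [e]
    generalize k ! * L = F at *
    refine (measure_union_le _ _).trans ((add_le_add (b := .ofReal (F + 2 * |c|))
      (d := .ofReal (F + L + 2 * |c|)) ?_ ?_).trans ?_)
    · rw [Real.volume_Icc]; exact ENNReal.ofReal_le_ofReal (by linarith)
    · rw [Real.volume_Icc]; exact ENNReal.ofReal_le_ofReal (by linarith)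
    have c0 := abs_nonneg c
    rw [← ENNReal.ofReal_add (by linarith) (by linarith)]
    refine ENNReal.ofReal_le_ofReal ?_
    have b : L + 4 * |c| ≤ B * F := by
      have : B * L = L + 4 * |c| := by rw [hB]; field_simp
      nlinarith
    have d : 2 + B ≤ δ * (k - B) := by
      rw [← div_le_iff₀' hδ]; linarith
    have t : (k - B) * F ≤ T := by linarith
    nlinarith [mul_le_mul_of_nonneg_right d (hL.le.trans hF), mul_le_mul_of_nonneg_left t hδ.le]
  · rcases h k with u | u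
    · exact .inl ⟨h0, u⟩
    · exact .inr ⟨u, (h (k + 1)).resolve_right (by linarith)⟩

noncomputable def θ : ℝ := liouvilleNumber (2 : ℕ)

noncomputable def g₁ : SL(2, ℝ) := ⟨!![1, -θ; 0, 1], by simp⟩

noncomputable def g₂ : SL(2, ℝ) := ⟨!![1 / (2 * √3), 1 / 2; -1, √3], by simp; field_simp; ring⟩

lemma ret (S : ℝ) : ∃ s ≥ S, ∃ γ ∈ Z, a s * g₁ * γ ∈ C 2 := by
  have ir : Irrational θ := (liouville_liouvilleNumber le_rfl).irrational
  obtain ⟨N, hN⟩ := exists_nat_ge (Real.exp S)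
  obtain ⟨n, hn⟩ := ((tendsto_one_div_add_atTop_nhds_zero_nat (𝕜 := ℝ)).const_mul 2).eventually
    (mul_zero (2 : ℝ) ▸ ir.eventually_forall_le_dist_cast_rat_of_den_le N) |>.and
      (eventually_gt_atTop 0) |>.exists
  obtain ⟨r, h1, h2⟩ := Real.exists_rat_abs_sub_le_and_den_le θ hn.2
  have q1 : (1 : ℝ) ≤ r.den := by exact_mod_cast r.pos
  have hq : N < r.den := not_le.1 fun h => by
    have := (hn.1 r h).trans (h1.trans (one_div_le_one_div_of_le (by positivity)
      (le_mul_of_one_le_right (by positivity) q1)))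
    linarith [show (0 : ℝ) < 1 / (n + 1) by positivity]
  obtain ⟨u, v, huv⟩ := Int.isCoprime_iff_gcd_eq_one.2 (show r.num.gcd r.den = 1 from r.reduced)
  have q0 : (0 : ℤ) < r.den := by exact_mod_cast r.pos
  have d : r.num * (u % r.den) - -(v + u / r.den * r.num) * r.den = 1 := by
    rw [Int.emod_def]; linear_combination huv
  have m0 : (0 : ℝ) ≤ (u % r.den : ℤ) := by exact_mod_cast Int.emod_nonneg u q0.ne'
  have m1 : ((u % r.den : ℤ) : ℝ) ≤ r.den := by exact_mod_cast (Int.emod_lt_of_pos u q0).le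
  generalize u % r.den = q' at *
  generalize -(v + u / r.den * r.num) = p' at *
  obtain ⟨γ, hγ, e⟩ := mZ _ _ _ _ d
  have q2 : (0 : ℝ) < r.den := by linarith
  have x : r.den * |r.num - θ * r.den| ≤ (1 : ℝ) := by
    have : (r.num : ℝ) - θ * r.den = -((θ - r) * r.den) := by rw [Rat.cast_def]; field_simp; ring
    rw [this, abs_neg, abs_mul, abs_of_pos q2]
    rw [le_div_iff₀ (by positivity)] at h1
    have : (r.den : ℝ) ≤ n := by exact_mod_cast h2
    nlinarith [mul_nonneg (abs_nonneg (θ - r)) q2.le]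
  refine ⟨Real.log r.den, (Real.le_log_iff_exp_le q2).2 (hN.trans (by exact_mod_cast hq.le)),
    γ, hγ, fun i j => ?_⟩
  have d' : (r.num : ℝ) * q' - p' * r.den = 1 := by exact_mod_cast d
  fin_cases i <;> fin_cases j <;>
    simp [a, g₁, e, mul_apply, Real.exp_neg, Real.exp_log q2, -abs_mul]
  · rw [show (r.den : ℝ) * r.num + -(r.den * θ * r.den) = r.den * (r.num - θ * r.den) by ring,
      abs_mul, abs_of_pos q2]; linarith
  · rw [show (r.den : ℝ) * p' + -(r.den * θ * q') = q' * (r.num - θ * r.den) - 1 by linarith]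
    refine (abs_sub _ _).trans ?_
    rw [abs_mul, abs_of_nonneg m0, abs_one]
    nlinarith [abs_nonneg (r.num - θ * r.den)]
  · rw [abs_of_nonneg (by positivity), inv_mul_le_iff₀ q2]; linarith

lemma a_zero : a 0 = 1 := by ext i j; fin_cases i <;> fin_cases j <;> simp [a]

lemma per (t : ℝ) : ∃ γ ∈ Z, a t * g₂ * γ ∈ C 2 := by
  let H : AddSubgroup ℝ := ⟨⟨⟨{t | g₂⁻¹ * a t * g₂ ∈ Z}, fun {s t} hs ht => by
    change _ * _ * _ ∈ Z
    convert! Z.mul_mem hs ht using 1; rw [a_add]; group⟩, by simp [a_zero]⟩, fun {s} hs => by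
    change _ * _ * _ ∈ Z
    convert! Z.inv_mem hs using 1
    rw [eq_inv_of_mul_eq_one_left (show a (-s) * a s = 1 by rw [← a_add, neg_add_cancel, a_zero])]
    group⟩
  have r : √3 * √3 = 3 := Real.mul_self_sqrt (by norm_num)
  have r0 : 0 ≤ √3 := Real.sqrt_nonneg _
  have r1 : 1 < √3 := by nlinarith
  have r2 : √3 < 2 := by nlinarith
  have L0 : 0 < Real.log (2 + √3) := Real.log_pos (by linarith)
  have eL : Real.exp (Real.log (2 + √3)) = 2 + √3 := Real.exp_log (by linarith)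
  have hL : Real.log (2 + √3) ∈ H := by
    obtain ⟨γ, hγ, e⟩ := mZ 2 3 1 2 (by norm_num)
    have : a (Real.log (2 + √3)) * g₂ = g₂ * γ := by
      ext i j
      fin_cases i <;> fin_cases j <;> simp [a, g₂, e, mul_apply, Real.exp_neg, eL] <;>
        field_simp <;> nlinarith
    change _ * _ * _ ∈ Z
    rwa [mul_assoc, this, inv_mul_cancel_left]
  refine ⟨_, H.neg_mem (H.zsmul_mem hL (toIcoDiv L0 0 t)), fun i j => ?_⟩
  have m := toIcoMod_mem_Ico' L0 t
  rw [show ∀ x : SL(2, ℝ), a t * g₂ * (g₂⁻¹ * x * g₂) = a t * x * g₂ from fun x => by group,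
    ← a_add, ← sub_eq_add_neg, self_sub_toIcoDiv_zsmul]
  generalize toIcoMod L0 0 t = s at *
  have e1 : Real.exp s ≤ 4 := by linarith [Real.exp_le_exp.2 m.2.le]
  have e2 : Real.exp (-s) ≤ 1 := Real.exp_le_one_iff.2 (by linarith [m.1])
  have e3 := Real.exp_pos (-s)
  fin_cases i <;> fin_cases j <;> simp [a, g₂, mul_apply, abs_of_nonneg r0]
  · rw [← mul_inv, ← div_eq_mul_inv, div_le_iff₀ (by positivity)]; linarith
  · linarith
  · linarith
  · nlinarith

theorem result : ∃ x : G ⧸ Γ,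
    (∀ α β : ℝ, (α, β) ≠ 0 → ∃ K, IsCompact K ∧
      ¬ IsCompact {t : ℝ | ((a (α * t), a (β * t)) : G) • x ∈ K}) ∧
    ∀ K, IsCompact K → Tendsto (fun T => volume.real
      {p ∈ closedBall (0 : ℝ × ℝ) T | ((a p.1, a p.2) : G) • x ∈ K} /
        volume.real (closedBall (0 : ℝ × ℝ) T)) atTop (𝓝 0) := by
  refine ⟨((g₁, g₂) : G), fun α β _ => ⟨_, ((cC (|θ| + 2)).prod (cC 2)).image
    QuotientGroup.continuous_mk, fun h => ?_⟩, fun K hK => ?_⟩
  · obtain ⟨R, hR⟩ := h.isBounded.exists_norm_le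
    have : ∀ t, (∃ γ ∈ Z, a (α * t) * g₁ * γ ∈ C (|θ| + 2)) → |t| ≤ R := fun t ⟨γ, hγ, h⟩ => by
      obtain ⟨δ, hδ, k⟩ := per (β * t)
      exact hR t ⟨(_, _), ⟨h, k⟩, QuotientGroup.mk_mul_of_mem
        ((a (α * t) * g₁, a (β * t) * g₂) : G) (b := (γ, δ)) ⟨hγ, hδ⟩⟩
    rcases eq_or_ne α 0 with rfl | h0
    · have := this (R + 1) ⟨1, Z.one_mem, fun i j => by
        have := abs_nonneg θ
        fin_cases i <;> fin_cases j <;> simp [a_zero, g₁] <;> linarith⟩
      linarith [le_abs_self (R + 1)]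
    · obtain ⟨s, hs, γ, hγ, h⟩ := ret (|α| * R + 1)
      have := this (s / α) ⟨γ, hγ, fun i j => by
        rw [mul_div_cancel₀ _ h0]; linarith [h i j, abs_nonneg θ]⟩
      rw [abs_div, div_le_iff₀ (abs_pos.2 h0)] at this
      linarith [le_abs_self s]
  obtain ⟨ε, ε0, hε⟩ := mahler K hK
  refine tendsto_order.2 ⟨fun b hb => .of_forall fun T => hb.trans_le (by positivity),
    fun δ hδ => ?_⟩
  filter_upwards [dens (-Real.log ε) _ (Real.log_pos one_lt_two) δ hδ, eventually_gt_atTop 0]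
    with T ⟨I, hI, hs⟩ hT
  have v : volume.real (closedBall (0 : ℝ × ℝ) T) = 2 * T * (2 * T) := by
    rw [← Prod.mk_zero_zero, ← closedBall_prod_same, Measure.volume_eq_prod, measureReal_prod_prod,
      Real.volume_real_closedBall hT.le]
  rw [v, div_lt_iff₀ (by positivity)]
  refine lt_of_le_of_lt (b := δ * T * (2 * T)) (ENNReal.toReal_le_of_le_ofReal (by positivity)
    ((measure_mono (t := I ×ˢ closedBall 0 T) fun p hp => ?_).trans ?_))
    (by nlinarith [mul_pos hδ (mul_pos hT hT)])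
  swap
  · rw [Measure.volume_eq_prod, Measure.prod_prod, Real.volume_closedBall,
      ENNReal.ofReal_mul (p := δ * T) (by positivity)]
    gcongr
  have b := hp.1
  rw [← Prod.mk_zero_zero, ← closedBall_prod_same] at b
  have h := hε (a p.1 * g₁, a p.2 * g₂) hp.2
  refine ⟨hs _ ((le_abs_self _).trans (mem_closedBall_zero_iff.1 b.1)) ?_ fun k => ?_, b.2⟩
  · have := h 1 0 (by simp)
    simp [a, g₁, mul_apply, ε0.not_ge] at this
    rwa [neg_neg, Real.log_le_iff_le_exp ε0]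
  obtain ⟨m, hm⟩ := LiouvilleNumber.partialSum_eq_rat two_pos k
  have r1 := LiouvilleNumber.remainder_lt' k (m := (2 : ℕ)) (by norm_num)
  have r2 := LiouvilleNumber.remainder_pos (m := (2 : ℕ)) (by norm_num) k
  have r3 := LiouvilleNumber.partialSum_add_remainder (m := (2 : ℕ)) (by norm_num) k
  have := h m (2 ^ k !) (.inr (by positivity))
  simp [a, g₁, mul_apply] at this
  have ex : ∀ n : ℕ, (2 : ℝ) ^ n = Real.exp (n * Real.log 2) := fun n => by
    rw [Real.exp_nat_mul, Real.exp_log two_pos]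
  refine this.symm.imp (fun h => ?_) fun h => ?_
  · rw [ex, ← Real.exp_add, ← Real.log_le_iff_le_exp ε0] at h
    linarith
  · have e : Real.exp p.1 * m + -(Real.exp p.1 * θ * 2 ^ k !) =
        -(Real.exp p.1 * (LiouvilleNumber.remainder (2 : ℕ) k * 2 ^ k !)) := by
      rw [θ, ← r3, hm]; push_cast; field_simp; ring
    rw [e, abs_neg, abs_of_pos (by positivity)] at h
    have : ε ≤ Real.exp p.1 * (2 * (2 ^ (k + 1)!)⁻¹ * 2 ^ k !) := h.trans (by
      gcongr; norm_num at r1 ⊢; exact r1.le)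
    rw [ex, ex, ← Real.exp_neg, ← Real.exp_log two_pos, Real.log_exp, ← Real.exp_add,
      ← Real.exp_add, ← Real.exp_add, ← Real.log_le_iff_le_exp ε0, Nat.factorial_succ] at this
    push_cast at this
    linarith

end Pool.Agent.Results.MP_f4a5b0_an.NoRecurrence
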